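import Pool.Agent.Helper26.HN.Stmts

/-! # Row NEZ (MP_56acfd_mp): attraction of the near nuclei -/

set_option autoImplicit false

namespace Pool.Agent.Helper76.HN

open MeasureTheory Filter Pool.Agent.Helper95 Pool.Agent.Helper95.PW Pool.Agent.Helper95.LN
  Pool.Agent.Helper26.HN

namespace NEZ76

theorem kin_nonneg {n : ℕ} (u : Wf n) : 0 ≤ kin u := by
  unfold kin PW.sq
  exact Finset.sum_nonneg fun _ _ => Finset.sum_nonneg fun _ _ => Finset.sum_nonneg fun _ _ =>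
    integral_nonneg fun _ => sq_nonneg _

theorem sq_nonneg' {n : ℕ} (u : Wf n) : 0 ≤ PW.sq u := by
  unfold PW.sq
  exact Finset.sum_nonneg fun _ _ => integral_nonneg fun _ => sq_nonneg _

theorem one_le {n : ℕ} (w w1 w2 : R3 → ℝ) (a b : ℝ) (u : Wf n)
    (h : ∀ y, w y ≤ a * w1 y + b * w2 y)
    (i0 : ∀ s, Integrable (fun x : Cf n => (∑ k, w (x k)) * u s x ^ 2))
    (i1 : ∀ s, Integrable (fun x : Cf n => (∑ k, w1 (x k)) * u s x ^ 2))
    (i2 : ∀ s, Integrable (fun x : Cf n => (∑ k, w2 (x k)) * u s x ^ 2)) :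
    one w u ≤ a * one w1 u + b * one w2 u := by
  unfold one
  rw [Finset.mul_sum, Finset.mul_sum, ← Finset.sum_add_distrib]
  apply Finset.sum_le_sum
  intro s _
  rw [← integral_const_mul, ← integral_const_mul,
    ← integral_add ((i1 s).const_mul a) ((i2 s).const_mul b)]
  apply integral_mono (i0 s) (((i1 s).const_mul a).add ((i2 s).const_mul b))
  intro x
  have h1 : (∑ k, w (x k)) ≤ a * (∑ k, w1 (x k)) + b * ∑ k, w2 (x k) := by
    rw [Finset.mul_sum, Finset.mul_sum, ← Finset.sum_add_distrib]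
    exact Finset.sum_le_sum (fun k _ => h _)
  have h2 := mul_le_mul_of_nonneg_right h1 (sq_nonneg (u s x))
  refine h2.trans (le_of_eq ?_)
  simp only [Pi.add_apply]
  ring

theorem young (a k m K : ℝ) (ha : 0 ≤ a) (hk : 0 ≤ k) (hm : 0 ≤ m) (hK : 0 < K) :
    a * (m ^ (2 / 5 : ℝ) * k ^ (3 / 5 : ℝ)) ≤
      K / 3 * k + (3 : ℝ) ^ (3 / 2 : ℝ) * K ^ (-(3 / 2) : ℝ) * a ^ (5 / 2 : ℝ) * m := by
  have hl : 0 < K / 3 := by positivity
  have hpq : (5 / 3 : ℝ).HolderConjugate (5 / 2) := by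
    rw [Real.holderConjugate_iff]
    norm_num
  have h := Real.young_inequality_of_nonneg (a := (K / 3 * k) ^ (3 / 5 : ℝ))
    (b := a * (K / 3) ^ (-(3 / 5) : ℝ) * m ^ (2 / 5 : ℝ)) (by positivity) (by positivity) hpq
  have e1 : (K / 3 * k) ^ (3 / 5 : ℝ) * (a * (K / 3) ^ (-(3 / 5) : ℝ) * m ^ (2 / 5 : ℝ)) =
      a * (m ^ (2 / 5 : ℝ) * k ^ (3 / 5 : ℝ)) := by
    rw [Real.mul_rpow hl.le hk]
    have : (K / 3) ^ (3 / 5 : ℝ) * (K / 3) ^ (-(3 / 5) : ℝ) = 1 := by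
      rw [← Real.rpow_add hl]
      norm_num
    calc _ = ((K / 3) ^ (3 / 5 : ℝ) * (K / 3) ^ (-(3 / 5) : ℝ)) *
          (a * (m ^ (2 / 5 : ℝ) * k ^ (3 / 5 : ℝ))) := by ring
      _ = _ := by rw [this, one_mul]
  have e2 : ((K / 3 * k) ^ (3 / 5 : ℝ)) ^ (5 / 3 : ℝ) = K / 3 * k := by
    rw [← Real.rpow_mul (by positivity)]
    norm_num
  have e3 : (a * (K / 3) ^ (-(3 / 5) : ℝ) * m ^ (2 / 5 : ℝ)) ^ (5 / 2 : ℝ) =
      a ^ (5 / 2 : ℝ) * (K / 3) ^ (-(3 / 2) : ℝ) * m := by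
    rw [Real.mul_rpow (by positivity) (by positivity), Real.mul_rpow ha (by positivity),
      ← Real.rpow_mul hl.le, ← Real.rpow_mul hm]
    norm_num
  have e4 : (K / 3) ^ (-(3 / 2) : ℝ) = (3 : ℝ) ^ (3 / 2 : ℝ) * K ^ (-(3 / 2) : ℝ) := by
    rw [Real.div_rpow hK.le (by norm_num), Real.rpow_neg (by norm_num : (0 : ℝ) ≤ 3), div_inv_eq_mul,
      mul_comm]
  rw [e1, e2, e3, e4] at h
  have h1 : K / 3 * k / (5 / 3) ≤ K / 3 * k := by
    have : 0 ≤ K / 3 * k := by positivity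
    linarith
  have h2 : a ^ (5 / 2 : ℝ) * ((3 : ℝ) ^ (3 / 2 : ℝ) * K ^ (-(3 / 2) : ℝ)) * m / (5 / 2) ≤
      (3 : ℝ) ^ (3 / 2 : ℝ) * K ^ (-(3 / 2) : ℝ) * a ^ (5 / 2 : ℝ) * m := by
    have : 0 ≤ (3 : ℝ) ^ (3 / 2 : ℝ) * K ^ (-(3 / 2) : ℝ) * a ^ (5 / 2 : ℝ) * m := by positivity
    have e5 : a ^ (5 / 2 : ℝ) * ((3 : ℝ) ^ (3 / 2 : ℝ) * K ^ (-(3 / 2) : ℝ)) * m =
        (3 : ℝ) ^ (3 / 2 : ℝ) * K ^ (-(3 / 2) : ℝ) * a ^ (5 / 2 : ℝ) * m := by ring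
    rw [e5]
    linarith
  linarith

theorem near1_le {M : ℕ} (X : Fin M → R3) (d s η : ℝ) (hs : s ≤ d) (hη : 0 < η) (y : R3) :
    near1 X s y ≤ η * near2 X d y + 1 / (4 * η) * nbr X s y := by
  unfold near1 near2 nbr
  rw [Finset.mul_sum, Finset.mul_sum, ← Finset.sum_add_distrib]
  apply Finset.sum_le_sum
  intro j _
  by_cases h : nr (y - X j) < s
  · rw [if_pos h, if_pos (h.trans_le hs), if_pos h]
    set w := nr (y - X j)
    have e : η * (1 / w ^ 2) + 1 / (4 * η) * 1 - 1 / w = (2 * η * (1 / w) - 1) ^ 2 / (4 * η) := by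
      field_simp
      ring
    have : 0 ≤ (2 * η * (1 / w) - 1) ^ 2 / (4 * η) := by positivity
    linarith
  · rw [if_neg h, if_neg h]
    have h1 : 0 ≤ if nr (y - X j) < d then 1 / nr (y - X j) ^ 2 else 0 := by
      split_ifs
      · positivity
      · exact le_rfl
    have := mul_nonneg hη.le h1
    linarith

end NEZ76

open NEZ76 in
/-- row NEZ -/
theorem NEZ (hNRL : ST_NRL) (hDYZ : ST_DYZ) (hINZ : ST_INZ) (hHLOC : ST_HLOC) : ST_NEZ := by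
  obtain ⟨C1, hC1, h1⟩ := hNRL
  obtain ⟨C2, hC2, h2⟩ := hDYZ
  obtain ⟨C0, hC0, h0⟩ := hHLOC
  refine ⟨(3 : ℝ) ^ (3 / 2 : ℝ) * C2 ^ (5 / 2 : ℝ), by positivity, ?_⟩
  intro d K hd hK
  set t1 : ℝ := 2 * K / (3 * d ^ 2) with ht1
  set t2 : ℝ := 3 * C0 * C1 / (4 * K) with ht2
  set t3 : ℝ := (3 : ℝ) ^ (3 / 2 : ℝ) * K ^ (-(3 / 2) : ℝ) * t2 ^ (5 / 2 : ℝ) with ht3
  have p1 : 0 < t1 := by rw [ht1]; positivity
  have p2 : 0 < t2 := by rw [ht2]; positivity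
  have p3 : 0 < t3 := by rw [ht3]; positivity
  refine ⟨t1 + t2 + t3 + C2, by positivity, ?_⟩
  intro n M X z b u hz hn hX hb hbd hu hA hsq
  have hz0 : 0 < z := by linarith
  have hkin := kin_nonneg u
  have hM : (0 : ℝ) ≤ M := Nat.cast_nonneg M
  have hsq0 := sq_nonneg' u
  have hnear : ∀ s, 0 < s → s ≤ 1 / z → s ≤ d → z * one (near1 X s) u ≤
      2 * (K / 3) * kin u + (t1 + t2 + t3) * z ^ 2 * M := by
    intro s hs hsz hsd
    set η : ℝ := K / (3 * C0 * z) with hη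
    have hη0 : 0 < η := by rw [hη]; positivity
    have a1 := one_le (near1 X s) (near2 X d) (nbr X s) η (1 / (4 * η)) u
      (near1_le X d s η hsd hη0) (hINZ n M X s u hu).1 (h0 n M X d u hd hX hu).1
      (hINZ n M X s u hu).2
    have a2 := (h0 n M X d u hd hX hu).2
    have a3 := h1 n M X d s u hX hs hsd hu hA hsq
    have a4 : z * one (near1 X s) u ≤ z * (η * (C0 * (kin u + n * PW.sq u / d ^ 2)) +
        1 / (4 * η) * (C1 * (M + (M : ℝ) ^ (2 / 5 : ℝ) * (kin u * s ^ 2) ^ (3 / 5 : ℝ)))) := by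
      apply mul_le_mul_of_nonneg_left _ hz0.le
      refine a1.trans (add_le_add ?_ ?_)
      · exact mul_le_mul_of_nonneg_left a2 hη0.le
      · exact mul_le_mul_of_nonneg_left a3 (by positivity)
    have e1 : z * (η * (C0 * (kin u + n * PW.sq u / d ^ 2)) +
        1 / (4 * η) * (C1 * (M + (M : ℝ) ^ (2 / 5 : ℝ) * (kin u * s ^ 2) ^ (3 / 5 : ℝ)))) =
        K / 3 * kin u + K / 3 * (n * PW.sq u / d ^ 2) + t2 * z ^ 2 * M +
          t2 * (z ^ 2 * ((M : ℝ) ^ (2 / 5 : ℝ) * (kin u * s ^ 2) ^ (3 / 5 : ℝ))) := by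
      rw [hη, ht2]
      field_simp
      ring
    rw [e1] at a4
    have b1 : K / 3 * (n * PW.sq u / d ^ 2) ≤ t1 * z ^ 2 * M := by
      have c1 : (n : ℝ) * PW.sq u ≤ (z * M) * 2 :=
        mul_le_mul hn hsq hsq0 (by positivity)
      have c2 : z * (M : ℝ) ≤ z ^ 2 * M := by
        apply mul_le_mul_of_nonneg_right _ hM
        nlinarith
      have c3 : (n : ℝ) * PW.sq u ≤ 2 * (z ^ 2 * M) := by linarith
      calc K / 3 * (n * PW.sq u / d ^ 2) ≤ K / 3 * (2 * (z ^ 2 * M) / d ^ 2) := by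
            apply mul_le_mul_of_nonneg_left _ (by positivity)
            exact div_le_div_of_nonneg_right c3 (by positivity)
        _ = _ := by
            rw [ht1]
            field_simp
    have b2 : z ^ 2 * ((M : ℝ) ^ (2 / 5 : ℝ) * (kin u * s ^ 2) ^ (3 / 5 : ℝ)) ≤
        z ^ (4 / 5 : ℝ) * ((M : ℝ) ^ (2 / 5 : ℝ) * kin u ^ (3 / 5 : ℝ)) := by
      have c1 : (kin u * s ^ 2) ^ (3 / 5 : ℝ) ≤ kin u ^ (3 / 5 : ℝ) * z ^ (-(6 / 5) : ℝ) := by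
        have c2 : kin u * s ^ 2 ≤ kin u * (1 / z) ^ 2 := by
          apply mul_le_mul_of_nonneg_left _ hkin
          exact pow_le_pow_left₀ hs.le hsz 2
        have c3 := Real.rpow_le_rpow (by positivity) c2 (by norm_num : (0 : ℝ) ≤ 3 / 5)
        refine c3.trans (le_of_eq ?_)
        rw [Real.mul_rpow hkin (by positivity)]
        congr 1
        rw [one_div, ← Real.rpow_neg_one z, ← Real.rpow_natCast, ← Real.rpow_mul hz0.le,
          ← Real.rpow_mul hz0.le]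
        norm_num
      have c4 : z ^ 2 * z ^ (-(6 / 5) : ℝ) = z ^ (4 / 5 : ℝ) := by
        rw [← Real.rpow_natCast, ← Real.rpow_add hz0]
        norm_num
      calc z ^ 2 * ((M : ℝ) ^ (2 / 5 : ℝ) * (kin u * s ^ 2) ^ (3 / 5 : ℝ))
          ≤ z ^ 2 * ((M : ℝ) ^ (2 / 5 : ℝ) * (kin u ^ (3 / 5 : ℝ) * z ^ (-(6 / 5) : ℝ))) := by
            apply mul_le_mul_of_nonneg_left _ (by positivity)
            exact mul_le_mul_of_nonneg_left c1 (by positivity)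
        _ = (z ^ 2 * z ^ (-(6 / 5) : ℝ)) * ((M : ℝ) ^ (2 / 5 : ℝ) * kin u ^ (3 / 5 : ℝ)) := by
            ring
        _ = _ := by rw [c4]
    have b3 := young (t2 * z ^ (4 / 5 : ℝ)) (kin u) M K (by positivity) hkin hM hK
    have b4 : (t2 * z ^ (4 / 5 : ℝ)) ^ (5 / 2 : ℝ) = t2 ^ (5 / 2 : ℝ) * z ^ 2 := by
      rw [Real.mul_rpow p2.le (by positivity), ← Real.rpow_mul hz0.le, ← Real.rpow_natCast]
      norm_num
    rw [b4] at b3
    have b5 : t2 * (z ^ 2 * ((M : ℝ) ^ (2 / 5 : ℝ) * (kin u * s ^ 2) ^ (3 / 5 : ℝ))) ≤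
        t2 * z ^ (4 / 5 : ℝ) * ((M : ℝ) ^ (2 / 5 : ℝ) * kin u ^ (3 / 5 : ℝ)) := by
      rw [mul_assoc]
      exact mul_le_mul_of_nonneg_left b2 p2.le
    have b6 : (3 : ℝ) ^ (3 / 2 : ℝ) * K ^ (-(3 / 2) : ℝ) * (t2 ^ (5 / 2 : ℝ) * z ^ 2) * M =
        t3 * z ^ 2 * M := by
      rw [ht3]
      ring
    rw [b6] at b3
    have e3 : 2 * (K / 3) * kin u + (t1 + t2 + t3) * z ^ 2 * M =
        K / 3 * kin u + t1 * z ^ 2 * M + t2 * z ^ 2 * M + (K / 3 * kin u + t3 * z ^ 2 * M) := by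
      ring
    rw [e3]
    linarith
  have hpos : 0 ≤ (3 : ℝ) ^ (3 / 2 : ℝ) * C2 ^ (5 / 2 : ℝ) * K ^ (-(3 / 2) : ℝ) *
      z ^ (5 / 2 : ℝ) * b ^ (1 / 2 : ℝ) * M := by positivity
  have hpos2 : 0 ≤ C2 * z ^ 2 * M := by positivity
  have hK3 : 0 ≤ K / 3 * kin u := by positivity
  rcases le_or_gt b (1 / z) with hbz | hbz
  · have := hnear b hb hbz hbd
    nlinarith [this, hpos, hpos2, hK3]
  · have hs0 : 0 < 1 / z := by positivity
    have g1 := hnear (1 / z) hs0 le_rfl (hbz.le.trans hbd)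
    have g2 := h2 n M X d (1 / z) b u hX hs0 hbz.le hbd hu hA hsq
    have g3 := mul_le_mul_of_nonneg_left g2 hz0.le
    have g4 := young (C2 * z * b ^ (1 / 5 : ℝ)) (kin u) M K (by positivity) hkin hM hK
    have g5 : (C2 * z * b ^ (1 / 5 : ℝ)) ^ (5 / 2 : ℝ) =
        C2 ^ (5 / 2 : ℝ) * z ^ (5 / 2 : ℝ) * b ^ (1 / 2 : ℝ) := by
      rw [Real.mul_rpow (by positivity) (by positivity), Real.mul_rpow hC2.le hz0.le,
        ← Real.rpow_mul hb.le]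
      norm_num
    rw [g5] at g4
    have g6 : z * (one (near1 X (1 / z)) u + C2 * (M / (1 / z) +
        (M : ℝ) ^ (2 / 5 : ℝ) * kin u ^ (3 / 5 : ℝ) * b ^ (1 / 5 : ℝ))) =
        z * one (near1 X (1 / z)) u + C2 * z ^ 2 * M +
          C2 * z * b ^ (1 / 5 : ℝ) * ((M : ℝ) ^ (2 / 5 : ℝ) * kin u ^ (3 / 5 : ℝ)) := by
      field_simp
      ring
    rw [g6] at g3
    have g7 : K * kin u + ((3 : ℝ) ^ (3 / 2 : ℝ) * C2 ^ (5 / 2 : ℝ) * K ^ (-(3 / 2) : ℝ) *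
        z ^ (5 / 2 : ℝ) * b ^ (1 / 2 : ℝ) + (t1 + t2 + t3 + C2) * z ^ 2) * M =
        (2 * (K / 3) * kin u + (t1 + t2 + t3) * z ^ 2 * M) + C2 * z ^ 2 * M +
        (K / 3 * kin u + (3 : ℝ) ^ (3 / 2 : ℝ) * K ^ (-(3 / 2) : ℝ) *
          (C2 ^ (5 / 2 : ℝ) * z ^ (5 / 2 : ℝ) * b ^ (1 / 2 : ℝ)) * M) := by
      ring
    rw [g7]
    linarith

end Pool.Agent.Helper76.HN
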